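import Mathlib

/-!
# MP_8fed12_co, Q1: the convex hull of the Tverberg points versus the core

We give nine points of `ℝ³` (so `d = 3`, `τ = 3`, `9 = (τ - 1) (d + 1) + 1`) for which
`conv D_τ(S)` is a proper subset of `core_{τ-1}(S)`.  The point `(-1/2, -1/4, 1/4)` lies in
the `2`-core, while every point `x` of `D_3(S)` satisfies `x₀ + x₁ + x₂ ≥ 0`.  The second
assertion is checked over all `3^9` labellings of the nine points by means of a list of 29
triples of affine inequalities.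
-/

namespace Pool.Agent.Results.MP_8fed12_co.CoreLarger

/-- `D_τ(S)`: the points `p` for which there is a partition of `S` into `τ` pairwise disjoint
parts all of whose convex hulls contain `p`. -/
def tverbergPoints {d : ℕ} (τ : ℕ) (S : Set (Fin d → ℝ)) : Set (Fin d → ℝ) :=
  {p | ∃ P : Fin τ → Set (Fin d → ℝ),
      (∀ i j, i ≠ j → Disjoint (P i) (P j)) ∧ (⋃ i, P i) = S ∧
      ∀ i, p ∈ convexHull ℝ (P i)}

/-- `core_σ(S)`: the intersection of the sets `conv (S \ T)` over all `T ⊆ S` with at most `σ`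
elements. -/
def core {d : ℕ} (σ : ℕ) (S : Set (Fin d → ℝ)) : Set (Fin d → ℝ) :=
  {p | ∀ T : Set (Fin d → ℝ), T ⊆ S → T.Finite → T.ncard ≤ σ → p ∈ convexHull ℝ (S \ T)}

/-! ### The data -/

/-- The nine points (integer coordinates). -/
def pt : Fin 9 → Fin 3 → ℤ :=
  ![![1, 1, 1],
    ![1, 2, 1],
    ![-1, 2, -1],
    ![-1, -1, 0],
    ![1, 2, 2],
    ![2, -2, 0],
    ![-2, -2, 2],
    ![2, 0, -2],
    ![-2, 0, 1]]

/-- The linear parts of the certificates. -/
def gs : Fin 29 → Fin 3 → Fin 3 → ℤ :=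
  ![![![-1, -1, -1], ![0, 0, 0], ![0, 0, 0]],
    ![![0, 0, 0], ![0, 0, 0], ![-1, -1, -1]],
    ![![0, 0, 0], ![-1, -1, -1], ![0, 0, 0]],
    ![![-4, 2, -3], ![3, -3, 2], ![0, 0, 0]],
    ![![-3, 1, 2], ![2, -2, -3], ![0, 0, 0]],
    ![![0, -2, 0], ![-1, 1, -1], ![0, 0, 0]],
    ![![-3, 1, 2], ![0, 0, 0], ![2, -2, -3]],
    ![![0, 0, 0], ![-3, 1, 2], ![2, -2, -3]],
    ![![2, -2, -3], ![0, 0, 0], ![-3, 1, 2]],
    ![![0, 0, 0], ![2, -2, -3], ![-3, 1, 2]],
    ![![2, -2, -3], ![-3, 1, 2], ![0, 0, 0]],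
    ![![3, -3, 2], ![0, 0, 0], ![-4, 2, -3]],
    ![![3, -3, 2], ![-4, 2, -3], ![0, 0, 0]],
    ![![-4, -2, -4], ![-4, -1, -3], ![7, 2, 6]],
    ![![-1, 1, -4], ![0, -2, 3], ![0, 0, 0]],
    ![![-4, 2, -3], ![0, 0, 0], ![3, -3, 2]],
    ![![0, 0, 0], ![-4, 2, -3], ![3, -3, 2]],
    ![![1, 3, 3], ![-2, -4, -4], ![0, 0, 0]],
    ![![0, 0, 0], ![-3, 3, -3], ![2, -4, 2]],
    ![![0, 0, 0], ![0, -2, 3], ![-1, 1, -4]],
    ![![0, 0, 0], ![3, -3, 2], ![-4, 2, -3]],
    ![![-3, 3, -3], ![2, -4, 2], ![0, 0, 0]],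
    ![![-3, 3, -3], ![0, 0, 0], ![2, -4, 2]],
    ![![0, -2, 3], ![-1, 1, -4], ![0, 0, 0]],
    ![![0, -2, 3], ![0, 0, 0], ![-1, 1, -4]],
    ![![0, -2, 0], ![0, 0, 0], ![-1, 1, -1]],
    ![![0, 0, 0], ![0, -2, 0], ![-1, 1, -1]],
    ![![-1, 1, -4], ![0, 0, 0], ![0, -2, 3]],
    ![![0, 0, 0], ![-1, 1, -4], ![0, -2, 3]]]

/-- The right-hand sides of the certificates. -/
def cs : Fin 29 → Fin 3 → ℤ :=
  ![![0, 0, 0],
    ![0, 0, 0],
    ![0, 0, 0],
    ![-2, 2, 0],
    ![3, -3, 0],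
    ![0, 0, 0],
    ![3, 0, -3],
    ![0, 3, -3],
    ![-3, 0, 3],
    ![0, -3, 3],
    ![-3, 3, 0],
    ![2, 0, -2],
    ![2, -2, 0],
    ![4, 5, -9],
    ![-2, 2, 0],
    ![-2, 0, 2],
    ![0, -2, 2],
    ![-4, 4, 0],
    ![0, 0, 0],
    ![0, 2, -2],
    ![0, 2, -2],
    ![0, 0, 0],
    ![0, 0, 0],
    ![2, -2, 0],
    ![2, 0, -2],
    ![0, 0, 0],
    ![0, 0, 0],
    ![-2, 0, 2],
    ![0, -2, 2]]

/-- `mask s i`: bit mask of the certificates in which the point `s` is allowed in part `i`. -/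
def mask : Fin 9 → Fin 3 → ℕ :=
  ![![536739839, 536870911, 536862719],
    ![536739839, 536870911, 536862719],
    ![396181495, 259715039, 417855487],
    ![369040086, 190639595, 514062141],
    ![536739839, 536870911, 536862719],
    ![478143199, 466075111, 129654591],
    ![478013326, 466074483, 129654013],
    ![402635519, 260046319, 519561023],
    ![505249702, 535997275, 32494845]]

/-- Integer dot product. -/
def dot (a b : Fin 3 → ℤ) : ℤ := a 0 * b 0 + a 1 * b 1 + a 2 * b 2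

theorem mask_ok : ∀ (k : Fin 29) (s : Fin 9) (i : Fin 3),
    (mask s i).testBit k = true → dot (gs k i) (pt s) ≤ cs k i := by
  decide +kernel

theorem cert_sum : ∀ (k : Fin 29) (j : Fin 3), gs k 0 j + gs k 1 j + gs k 2 j = -1 := by
  decide +kernel

theorem cert_rhs : ∀ (k : Fin 29), cs k 0 + cs k 1 + cs k 2 = 0 := by
  decide +kernel

/-- The covering check. -/
def cov : List (Fin 9) → ℕ → Bool
  | [], m => m != 0
  | s :: l, m => cov l (m &&& mask s 0) && cov l (m &&& mask s 1) && cov l (m &&& mask s 2)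

theorem cov_ok : cov [0, 1, 2, 3, 4, 5, 6, 7, 8] (2 ^ 29 - 1) = true := by
  decide +kernel

theorem cov_spec (f : Fin 9 → Fin 3) : ∀ (l : List (Fin 9)) (m : ℕ), cov l m = true →
    ∃ k : ℕ, m.testBit k = true ∧ ∀ s ∈ l, (mask s (f s)).testBit k = true := by
  intro l
  induction l with
  | nil =>
    intro m hm
    have hm0 : m ≠ 0 := by simpa [cov] using hm
    obtain ⟨k, hk⟩ := Nat.exists_testBit_of_ne_zero hm0
    exact ⟨k, hk, by simp⟩
  | cons s l ih =>
    intro m hm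
    simp only [cov, Bool.and_eq_true] at hm
    obtain ⟨⟨h0, h1⟩, h2⟩ := hm
    have key : cov l (m &&& mask s (f s)) = true := by
      rcases hfs : f s with ⟨v, hv⟩
      interval_cases v
      · exact h0
      · exact h1
      · exact h2
    obtain ⟨k, hk, hl⟩ := ih _ key
    rw [Nat.testBit_and, Bool.and_eq_true] at hk
    refine ⟨k, hk.1, ?_⟩
    intro t ht
    rcases List.mem_cons.1 ht with rfl | ht
    · exact hk.2
    · exact hl t ht

theorem exists_cert (f : Fin 9 → Fin 3) :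
    ∃ k : Fin 29, ∀ s : Fin 9, dot (gs k (f s)) (pt s) ≤ cs k (f s) := by
  obtain ⟨k, hk, hl⟩ := cov_spec f _ _ cov_ok
  have hk29 : k < 29 := by
    by_contra hcon
    have : (2 ^ 29 - 1 : ℕ).testBit k = false := by
      rw [Nat.testBit_two_pow_sub_one]
      simpa using hcon
    rw [this] at hk
    exact Bool.noConfusion hk
  refine ⟨⟨k, hk29⟩, fun s => mask_ok ⟨k, hk29⟩ s (f s) (hl s ?_)⟩
  fin_cases s <;> simp

/-! ### The point set -/

/-- The real points. -/
def q (s : Fin 9) : Fin 3 → ℝ := fun j => (pt s j : ℝ)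

/-- The point set of the counterexample. -/
def S : Set (Fin 3 → ℝ) := Set.range q

theorem pt_inj : ∀ s t : Fin 9, pt s = pt t → s = t := by
  decide +kernel

theorem q_inj : Function.Injective q := by
  intro s t h
  apply pt_inj
  funext j
  have := congrFun h j
  simpa [q] using this

theorem S_finite : S.Finite := Set.finite_range q

theorem S_ncard : S.ncard = 9 := by
  rw [S, ← Set.image_univ, Set.ncard_image_of_injective _ q_inj, Set.ncard_univ]
  simp

/-- Real dot product with an integer vector. -/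
def rdot (a : Fin 3 → ℤ) (x : Fin 3 → ℝ) : ℝ := a 0 * x 0 + a 1 * x 1 + a 2 * x 2

theorem rdot_q (a : Fin 3 → ℤ) (s : Fin 9) : rdot a (q s) = (dot a (pt s) : ℝ) := by
  simp [rdot, dot, q]

theorem isLinear_rdot (a : Fin 3 → ℤ) : IsLinearMap ℝ (rdot a) := by
  constructor
  · intro x y
    simp only [rdot, Pi.add_apply]
    ring
  · intro c x
    simp only [rdot, Pi.smul_apply, smul_eq_mul]
    ring

theorem tverberg_sum_nonneg (x : Fin 3 → ℝ) (hx : x ∈ tverbergPoints 3 S) :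
    0 ≤ x 0 + x 1 + x 2 := by
  obtain ⟨P, hdisj, hU, hxP⟩ := hx
  have hf : ∀ s : Fin 9, ∃ i : Fin 3, q s ∈ P i := by
    intro s
    have : q s ∈ (⋃ i, P i) := by
      rw [hU]
      exact ⟨s, rfl⟩
    simpa using this
  choose f hf using hf
  obtain ⟨k, hk⟩ := exists_cert f
  have hle : ∀ i : Fin 3, rdot (gs k i) x ≤ cs k i := by
    intro i
    have hsub : P i ⊆ {y | rdot (gs k i) y ≤ (cs k i : ℝ)} := by
      intro y hy
      have hyS : y ∈ S := by
        rw [← hU]
        exact Set.mem_iUnion.2 ⟨i, hy⟩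
      obtain ⟨s, rfl⟩ := hyS
      have hfs : f s = i := by
        by_contra hne
        exact Set.disjoint_left.1 (hdisj _ _ hne) (hf s) hy
      have := hk s
      rw [hfs] at this
      show rdot (gs k i) (q s) ≤ (cs k i : ℝ)
      rw [rdot_q]
      exact_mod_cast this
    exact convexHull_min hsub (convex_halfSpace_le (isLinear_rdot _) _) (hxP i)
  have h0 := hle 0
  have h1 := hle 1
  have h2 := hle 2
  have e0 : (gs k 0 0 : ℝ) + gs k 1 0 + gs k 2 0 = -1 := by exact_mod_cast cert_sum k 0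
  have e1 : (gs k 0 1 : ℝ) + gs k 1 1 + gs k 2 1 = -1 := by exact_mod_cast cert_sum k 1
  have e2 : (gs k 0 2 : ℝ) + gs k 1 2 + gs k 2 2 = -1 := by exact_mod_cast cert_sum k 2
  have er : (cs k 0 : ℝ) + cs k 1 + cs k 2 = 0 := by exact_mod_cast cert_rhs k
  have key : ((gs k 0 0 : ℝ) + gs k 1 0 + gs k 2 0) * x 0 +
      ((gs k 0 1 : ℝ) + gs k 1 1 + gs k 2 1) * x 1 +
      ((gs k 0 2 : ℝ) + gs k 1 2 + gs k 2 2) * x 2 ≤ 0 := by
    rw [← er]
    simp only [rdot] at h0 h1 h2
    linarith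
  rw [e0, e1, e2] at key
  linarith

/-! ### The core point -/

/-- Four times the point of the core. -/
def pn : Fin 3 → ℤ := ![-2, -1, 1]

/-- The point `(-1/2, -1/4, 1/4)` of the core. -/
noncomputable def p : Fin 3 → ℝ := fun j => (pn j : ℝ) / 4

/-- The four supports. -/
def supp : Fin 4 → Finset (Fin 9) := ![{1, 3}, {0, 2, 5, 6}, {4, 5, 7, 8}, {0, 2, 6, 7}]

theorem supp_ok : ∀ T : Finset (Fin 9), T.card ≤ 2 → ∃ a : Fin 4, Disjoint (supp a) T := by
  decide +kernel

theorem mem_of_comb4 (K : Set (Fin 3 → ℝ)) (hK : Convex ℝ K) (a b c d : Fin 9)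
    (wa wb wc wd D : ℤ) (h0 : 0 ≤ wa) (h1 : 0 ≤ wb) (h2 : 0 ≤ wc) (h3 : 0 ≤ wd) (hD : 0 < D)
    (hsum : wa + wb + wc + wd = D)
    (hp : ∀ j, 4 * (wa * pt a j + wb * pt b j + wc * pt c j + wd * pt d j) = D * pn j)
    (ha : q a ∈ K) (hb : q b ∈ K) (hc : q c ∈ K) (hd : q d ∈ K) : p ∈ K := by
  have hDr : (0 : ℝ) < D := by exact_mod_cast hD
  have h0r : (0 : ℝ) ≤ wa := by exact_mod_cast h0
  have h1r : (0 : ℝ) ≤ wb := by exact_mod_cast h1
  have h2r : (0 : ℝ) ≤ wc := by exact_mod_cast h2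
  have h3r : (0 : ℝ) ≤ wd := by exact_mod_cast h3
  have hsr : (wa : ℝ) + wb + wc + wd = D := by exact_mod_cast hsum
  have hw : ∀ i ∈ (Finset.univ : Finset (Fin 4)),
      0 ≤ (![(wa : ℝ) / D, (wb : ℝ) / D, (wc : ℝ) / D, (wd : ℝ) / D] : Fin 4 → ℝ) i := by
    intro i _
    fin_cases i
    · exact div_nonneg h0r hDr.le
    · exact div_nonneg h1r hDr.le
    · exact div_nonneg h2r hDr.le
    · exact div_nonneg h3r hDr.le
  have := hK.sum_mem (t := Finset.univ)
    (w := ![(wa : ℝ) / D, (wb : ℝ) / D, (wc : ℝ) / D, (wd : ℝ) / D])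
    (z := ![q a, q b, q c, q d]) hw
    (by
      rw [Fin.sum_univ_four]
      show (wa : ℝ) / D + (wb : ℝ) / D + (wc : ℝ) / D + (wd : ℝ) / D = 1
      rw [← add_div, ← add_div, ← add_div, hsr, div_self hDr.ne'])
    (by
      intro i _
      fin_cases i
      · exact ha
      · exact hb
      · exact hc
      · exact hd)
  rw [Fin.sum_univ_four] at this
  have heq : p = ((wa : ℝ) / D) • q a + ((wb : ℝ) / D) • q b + ((wc : ℝ) / D) • q c +
      ((wd : ℝ) / D) • q d := by
    funext j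
    have hj : 4 * ((wa : ℝ) * pt a j + wb * pt b j + wc * pt c j + wd * pt d j) = D * pn j := by
      exact_mod_cast hp j
    simp only [Pi.add_apply, Pi.smul_apply, smul_eq_mul, p, q]
    field_simp
    linarith
  rw [heq]
  exact this

theorem p_mem_supp (a : Fin 4) (K : Set (Fin 3 → ℝ)) (hK : Convex ℝ K)
    (h : ∀ s ∈ supp a, q s ∈ K) : p ∈ K := by
  fin_cases a
  · exact mem_of_comb4 K hK 1 1 3 3 1 0 3 0 4 (by decide) (by decide) (by decide) (by decide)
      (by decide) (by decide) (by decide) (h 1 (by decide)) (h 1 (by decide)) (h 3 (by decide))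
      (h 3 (by decide))
  · exact mem_of_comb4 K hK 0 2 5 6 6 62 37 47 152 (by decide) (by decide) (by decide)
      (by decide) (by decide) (by decide) (by decide) (h 0 (by decide)) (h 2 (by decide))
      (h 5 (by decide)) (h 6 (by decide))
  · exact mem_of_comb4 K hK 4 5 7 8 4 25 35 104 168 (by decide) (by decide) (by decide)
      (by decide) (by decide) (by decide) (by decide) (h 4 (by decide)) (h 5 (by decide))
      (h 7 (by decide)) (h 8 (by decide))
  · exact mem_of_comb4 K hK 0 2 6 7 18 38 67 37 160 (by decide) (by decide) (by decide)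
      (by decide) (by decide) (by decide) (by decide) (h 0 (by decide)) (h 2 (by decide))
      (h 6 (by decide)) (h 7 (by decide))

theorem p_mem_core : p ∈ core 2 S := by
  classical
  intro T hTS hTfin hT
  let T' : Finset (Fin 9) := Finset.univ.filter (fun s => q s ∈ T)
  have hT' : T'.card ≤ 2 := by
    have himg : q '' (T' : Set (Fin 9)) = T := by
      ext y
      constructor
      · rintro ⟨s, hs, rfl⟩
        simpa [T'] using hs
      · intro hy
        obtain ⟨s, rfl⟩ := hTS hy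
        exact ⟨s, by simpa [T'] using hy, rfl⟩
    have : T.ncard = T'.card := by
      rw [← himg, Set.ncard_image_of_injective _ q_inj, Set.ncard_coe_finset]
    omega
  obtain ⟨a, ha⟩ := supp_ok T' hT'
  refine p_mem_supp a _ (convex_convexHull ℝ _) ?_
  intro s hs
  apply subset_convexHull
  refine ⟨⟨s, rfl⟩, fun hsT => ?_⟩
  exact Finset.disjoint_left.1 ha hs (by simpa [T'] using hsT)

/-! ### The general inclusion -/

theorem convex_core {d : ℕ} (σ : ℕ) (S : Set (Fin d → ℝ)) : Convex ℝ (core σ S) := by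
  intro x hx y hy a b ha hb hab T h1 h2 h3
  exact convex_convexHull ℝ _ (hx T h1 h2 h3) (hy T h1 h2 h3) ha hb hab

theorem tverbergPoints_subset_core {d : ℕ} (τ : ℕ) (hτ : 1 ≤ τ) (S : Set (Fin d → ℝ)) :
    tverbergPoints τ S ⊆ core (τ - 1) S := by
  rintro x ⟨P, hdisj, hU, hxP⟩ T hTS hTfin hT
  have : ∃ i, Disjoint (P i) T := by
    by_contra hcon
    push Not at hcon
    have h2 : ∀ i, ∃ t, t ∈ P i ∧ t ∈ T := fun i => Set.not_disjoint_iff.1 (hcon i)
    choose g hg1 hg2 using h2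
    have hginj : Function.Injective g := by
      intro i j hij
      by_contra hne
      exact Set.disjoint_left.1 (hdisj i j hne) (hg1 i) (hij ▸ hg1 j)
    have hsub : Set.range g ⊆ T := by
      rintro _ ⟨i, rfl⟩
      exact hg2 i
    have hc := Set.ncard_le_ncard hsub hTfin
    rw [← Set.image_univ, Set.ncard_image_of_injective _ hginj, Set.ncard_univ] at hc
    simp at hc
    omega
  obtain ⟨i, hi⟩ := this
  refine convexHull_mono ?_ (hxP i)
  intro y hy
  refine ⟨?_, fun hyT => Set.disjoint_left.1 hi hy hyT⟩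
  rw [← hU]
  exact Set.mem_iUnion.2 ⟨i, hy⟩

/-- **Q1 of MP_8fed12_co is answered negatively**: there are `d`, `τ` and a set `S` of exactly
`(τ - 1) (d + 1) + 1` points of `ℝ^d` such that `conv D_τ(S)` is a proper subset of
`core_{τ-1}(S)`. -/
theorem result : ∃ d τ : ℕ, 1 ≤ d ∧ 1 ≤ τ ∧ ∃ S : Set (Fin d → ℝ), S.Finite ∧
    S.ncard = (τ - 1) * (d + 1) + 1 ∧
    convexHull ℝ (tverbergPoints τ S) ⊂ core (τ - 1) S := by
  refine ⟨3, 3, by norm_num, by norm_num, S, S_finite, by rw [S_ncard], ?_⟩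
  refine ⟨convexHull_min (tverbergPoints_subset_core 3 (by norm_num) S) (convex_core _ _), ?_⟩
  intro hsub
  have hp : p ∈ convexHull ℝ (tverbergPoints 3 S) := hsub p_mem_core
  have hlin : IsLinearMap ℝ (fun x : Fin 3 → ℝ => x 0 + x 1 + x 2) := by
    constructor
    · intro x y
      simp only [Pi.add_apply]
      ring
    · intro c x
      simp only [Pi.smul_apply, smul_eq_mul]
      ring
  have h2 : p ∈ {x : Fin 3 → ℝ | 0 ≤ x 0 + x 1 + x 2} :=
    convexHull_min (fun x hx => tverberg_sum_nonneg x hx) (convex_halfSpace_ge hlin 0) hp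
  have h3 : (0 : ℝ) ≤ p 0 + p 1 + p 2 := h2
  have e0 : p 0 = ((-2 : ℤ) : ℝ) / 4 := rfl
  have e1 : p 1 = ((-1 : ℤ) : ℝ) / 4 := rfl
  have e2 : p 2 = ((1 : ℤ) : ℝ) / 4 := rfl
  rw [e0, e1, e2] at h3
  norm_num at h3

end Pool.Agent.Results.MP_8fed12_co.CoreLarger
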